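import Mathlib
import Pool.Agent.SC.Model
import Pool.Agent.SC.Gauss
import Pool.Agent.SC.Bomb
import Pool.Agent.SC.Flat
import Pool.Agent.SC.Leaf
import Pool.Agent.SC.VdW
import Pool.Agent.SC.Back
import Pool.Agent.SC.Cut
import Pool.Agent.SC.Final
import Pool.Agent.SC.Det
import Pool.Agent.SC.Sharp

/-!
# Numerically stable programs for the permanent, with free determinants

The model (definitions in `Pool.Agent.SC.Model`). The input is a complex `n × n` matrix `x`. A
program `C : Circuit n` has `C.s` steps. The result of a step is
* either the product of two expressions, each of them the sum of a polynomial in the entries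
  of `x` and of a linear combination of the results of the earlier steps;
* or a linear combination, with any coefficients, of the minors of all sizes of the matrix
  `(A i j * x i j)`, where `A` is any complex matrix (`A` may depend on the step).
The output is an expression of the first kind. `C.Low θ` says that all the polynomials in these
expressions have degree at most `θ`; they are otherwise arbitrary and cost nothing: in particular
all permanents of size at most `θ` are free. So are all linear operations.

Rounding. If the result of step `g` has a relative error `t`, then the output changes by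
`t * C.err g x + O(t ^ 2)`: `C.err g x` is the derivative at `t = 0` of the output when the result
of step `g` is multiplied by `1 + t`. The norm is the `L^2` norm for independent standard complex
Gaussian entries, `gsq f = E |f(X)|^2`. The amplification factor `K g` of step `g` bounds
`‖C.err g (r X)‖ / ‖perm (r X)‖` at all scales `r > 0` (if the program is homogeneous then this
ratio does not depend on `r`).

The theorem. (1) If the output is an approximation of the permanent with relative error `1 - ε` in
`L^2`, and the free polynomials have degree at most `n - m`, `3 m ≤ n + 1`, then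
`∑ g, K g ≥ ε * (n.choose m) ^ (1 / 2)`, about `ε * 2 ^ (0.459 n)` for `m = n / 3`. So a program of
polynomial size has a step with exponentially large amplification, also when all permanents of
size `0.99 n` and all determinants are free. (2) The bound is attained: by the Laplace
expansion along `m` rows. (3) The determinant is computed in one step, with `K = 1`.

Proof. The derivative `D g` of the output with respect to the result `v g` satisfies the backward
recursion, `err g = v g * D g`; as it is bounded at all scales it is homogeneous of degree `n`,
and so are its factors. Counting degrees, the part of degree `n` of the output is the sum of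
`err g` over the multiplications of results of degree at most `n - m` with a product of degree
greater than `n - m`, and over the combinations of minors of degree greater than `n - m`. In the
first case `err g = a * b` with `a` homogeneous of degree `k`, `m ≤ k ≤ n - m`, and
`|⟨a b, perm⟩| ≤ (k! (n-k)!) ^ (1/2) ‖a‖ ‖b‖ ≤ (n.choose k) ^ (- 1/2) ‖a b‖ ‖perm‖` by the
Cauchy-Schwarz inequality over the pairs (permutation, set of `k` rows) and by Bombieri's
inequality. In the second case the inner product is smaller, because
`|det B| ^ 2 ≤ e ^ k * perm (|B i j| ^ 2)` (Hadamard's inequality with weights and Gurvits' proof of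
the van der Waerden bound).

Lean: helper9 (Gaussian moments), helper43 (Bombieri inequality), helper78 (Cauchy-Schwarz over
partial permutations, Hadamard), helper61 (cut identity, Gurvits), helper33 (minors), helper86
(backpropagation), helper52 (plan, assembly); idea also by helper15, free minors by helper10.
-/

set_option autoImplicit false

namespace Pool.Agent.Results.MP_381749_lc.StableCircuits

open Pool.Agent.SC

theorem result :
    (∀ (n m : ℕ) (C : Circuit n) (K : ℕ → ℝ) (ε : ℝ), 13 ≤ n → 1 ≤ m → 3 * m ≤ n + 1 →
      C.Low (n - m) → ε ≤ 1 →
      gsq (fun x => C.output 1 x - perm x) ≤ (1 - ε) ^ 2 * gsq (fun x : Fin n × Fin n → ℂ => perm x) →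
      (∀ g, g < C.s → 0 ≤ K g ∧ ∀ r : ℝ, 0 < r →
        gsq (fun x => C.err g fun i => (r : ℂ) * x i) ≤
          K g ^ 2 * gsq (fun x : Fin n × Fin n → ℂ => perm fun i => (r : ℂ) * x i)) →
      ε * Real.sqrt (n.choose m) ≤ ∑ g ∈ Finset.range C.s, K g) ∧
    (∀ n m : ℕ, 1 ≤ m → 2 * m ≤ n → ∃ C : Circuit n, C.Low (n - m) ∧ C.s = n.choose m ∧
      (∀ x, C.output 1 x = perm x) ∧ ∀ g, g < C.s → ∀ r : ℝ,
        gsq (fun x => C.err g fun i => (r : ℂ) * x i) =
          (n.choose m : ℝ)⁻¹ * gsq (fun x : Fin n × Fin n → ℂ => perm fun i => (r : ℂ) * x i)) ∧
    ∀ n : ℕ, ∃ C : Circuit n, C.Low 0 ∧ C.s = 1 ∧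
      (∀ x : Fin n × Fin n → ℂ, C.output 1 x = Matrix.det (Matrix.of fun i j => x (i, j))) ∧
      ∀ r : ℝ, gsq (fun x => C.err 0 fun i => (r : ℂ) * x i) =
        gsq (fun x : Fin n × Fin n → ℂ => perm fun i => (r : ℂ) * x i) :=
  ⟨fun _ _ C K _ hn hm1 hm3 hC hε1 happ hK =>
    main rowGauss rowFlat rowBomb rowLeaf rowVdW rowBack rowCut hn hm1 hm3 C hC K hε1 happ
      (fun g hg => (hK g hg).1) fun g hg => (hK g hg).2,
    fun n m h1 h2 => sharp n m h1 h2, det_step⟩

end Pool.Agent.Results.MP_381749_lc.StableCircuits
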